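import Pool.Agent.Results.MP_dad4ef_an.OuterNotCyclic
import Pool.Agent.Y283.BD.Poi
import Pool.Agent.Y283.BD.Nc

/-!
# MP_dad4ef_an: a smooth outer function on the bidisk which is cyclic in no space of polynomial type

The function `F (z₁,z₂) = (1-s) exp(-(1+s)/(1-s) - (1-s)^(-1/2))`, `s = (z₁+z₂)/2`, has rapidly
decreasing Taylor coefficients (so it is smooth up to the boundary of the bidisk), it is outer and
its only zero on the closed bidisk is the point `(1,1)`.  It belongs to every weighted space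
`∑ ω(k,l) |a_{k,l}|² < ∞` with polynomially bounded `ω`, `1/ω`, and it is cyclic in none of them.
-/

set_option autoImplicit false

namespace Pool.Agent.Results.MP_dad4ef_an.SmoothNotCyclic

open Filter Topology Real MeasureTheory
open Pool.Agent.Results.MP_dad4ef_an.OuterNotCyclic
  (HasCoeffs dirichletSq IsCyclic RadialLim IsOuter zeroSet CapZero bidisk torus haar2
    half_mem capZero_of_sub)

/-- The square of the norm of the space with the weight `ω`, `∑ ω(k,l) |a_{k,l}|²`; it is `⊤` when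
`f` has no power series on the bidisk.  The space consists of the `f` with `weightSq ω f < ⊤`. -/
noncomputable def weightSq (ω : ℕ × ℕ → ℝ) (f : ℂ × ℂ → ℂ) : ENNReal :=
  ⨅ (a : ℕ × ℕ → ℂ) (_ : HasCoeffs f a), ∑' k : ℕ × ℕ, ENNReal.ofReal (ω k * ‖a k‖ ^ 2)

/-- `f` is cyclic in the space with the weight `ω`: there are polynomials `p` with `‖p f - 1‖`
arbitrarily small. -/
def IsCyclicIn (ω : ℕ × ℕ → ℝ) (f : ℂ × ℂ → ℂ) : Prop :=
  ∀ ε : ℝ, 0 < ε → ∃ p : MvPolynomial (Fin 2) ℂ,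
    weightSq ω (fun z => MvPolynomial.eval ![z.1, z.2] p * f z - 1) < ENNReal.ofReal ε

/-- the weight is bounded above and below by powers of `k + l + 1` -/
def Tame (ω : ℕ × ℕ → ℝ) : Prop :=
  ∃ (N : ℕ) (c C : ℝ), 0 < c ∧ ∀ k : ℕ × ℕ,
    c / ((k.1 : ℝ) + k.2 + 1) ^ N ≤ ω k ∧ ω k ≤ C * ((k.1 : ℝ) + k.2 + 1) ^ N

/-- the Taylor coefficients of `f` are rapidly decreasing -/
def Rapid (f : ℂ × ℂ → ℂ) : Prop :=
  ∃ a : ℕ × ℕ → ℂ, HasCoeffs f a ∧
    ∀ M : ℕ, ∃ C : ℝ, ∀ k : ℕ × ℕ, ((k.1 : ℝ) + k.2 + 1) ^ M * ‖a k‖ ≤ C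

/-- the size `ν f` controls the values of `f` on the diagonal, up to a power of `1/(1-|s|)` -/
def Controls (ν : (ℂ × ℂ → ℂ) → ENNReal) : Prop :=
  ∃ (C : ℝ) (N : ℕ), ∀ (f : ℂ × ℂ → ℂ) (s : ℂ), ‖s‖ < 1 →
    ENNReal.ofReal ‖f (s, s)‖ ≤ ENNReal.ofReal (C / (1 - ‖s‖) ^ N) * ν f

/-- the function of one variable; the second term in the exponent is `(1-s)^(-1/2)` -/
noncomputable def g (s : ℂ) : ℂ :=
  (1 - s) * Complex.exp (-((1 + s) / (1 - s)) - Complex.exp (-(Complex.log (1 - s) / 2)))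

/-- the counterexample -/
noncomputable def F (z : ℂ × ℂ) : ℂ := g ((z.1 + z.2) / 2)

open Pool.Agent.Y283.BD

lemma F_eq (z : ℂ × ℂ) : F z = hh ((z.1 + z.2) / 2) := rfl

lemma rapid_F : Rapid F := by
  obtain ⟨a, ha, hM⟩ := F_coeffs
  exact ⟨a, fun z hz => ha z hz.1 hz.2, hM⟩

lemma contOn_hh : ContinuousOn hh (Metric.closedBall 0 1) := by
  intro s hs
  have hs' : ‖s‖ ≤ 1 := by simpa using hs
  by_cases h : s = 1
  · subst h
    have h0 : hh 1 = 0 := by simp [hh]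
    unfold ContinuousWithinAt
    rw [h0]
    refine squeeze_zero_norm' (a := fun s => ‖1 - s‖) ?_ ?_
    · filter_upwards [self_mem_nhdsWithin] with s hs
      exact norm_hh_le (by simpa using hs)
    · have : Continuous fun s : ℂ => ‖1 - s‖ := by fun_prop
      have h2 := this.tendsto 1
      simp only [sub_self, norm_zero] at h2
      exact h2.mono_left nhdsWithin_le_nhds
  · exact (analyticAt_hh hs' h).continuousAt.continuousWithinAt

lemma contOn_F : ContinuousOn F {z | ‖z.1‖ ≤ 1 ∧ ‖z.2‖ ≤ 1} := by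
  have : ContinuousOn (fun z : ℂ × ℂ => hh ((z.1 + z.2) / 2)) {z | ‖z.1‖ ≤ 1 ∧ ‖z.2‖ ≤ 1} :=
    contOn_hh.comp (by fun_prop) fun z hz => half_mem hz.1 hz.2
  exact this

lemma radial {ζ : ℂ × ℂ} (h1 : ‖ζ.1‖ ≤ 1) (h2 : ‖ζ.2‖ ≤ 1) : RadialLim F ζ (F ζ) := by
  unfold RadialLim
  have hc : ContinuousWithinAt F {z | ‖z.1‖ ≤ 1 ∧ ‖z.2‖ ≤ 1} ζ := contOn_F _ ⟨h1, h2⟩
  refine hc.tendsto.comp (f := fun r : ℝ => ((r : ℂ) * ζ.1, (r : ℂ) * ζ.2)) ?_
  refine tendsto_nhdsWithin_iff.2 ⟨?_, ?_⟩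
  · have : Continuous fun r : ℝ => ((r : ℂ) * ζ.1, (r : ℂ) * ζ.2) := by fun_prop
    have h3 := this.tendsto 1
    simp only [Complex.ofReal_one, one_mul] at h3
    exact h3.mono_left nhdsWithin_le_nhds
  · have h0 : ∀ᶠ r : ℝ in 𝓝[<] 1, 0 < r :=
      (lt_mem_nhds (zero_lt_one (α := ℝ))).filter_mono nhdsWithin_le_nhds
    filter_upwards [h0, self_mem_nhdsWithin] with r h0 hr
    have hr1 : ∀ u : ℂ, ‖u‖ ≤ 1 → ‖(r : ℂ) * u‖ ≤ 1 := by
      intro u hu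
      rw [norm_mul, Complex.norm_real, Real.norm_of_nonneg h0.le]
      have : r < 1 := hr
      nlinarith [norm_nonneg u]
    exact ⟨hr1 _ h1, hr1 _ h2⟩

lemma F_ne {z : ℂ × ℂ} (h1 : ‖z.1‖ ≤ 1) (h2 : ‖z.2‖ ≤ 1) (h : z.1 ≠ 1) : F z ≠ 0 := by
  rw [F_eq]; exact hh_ne (H806R3.Bid.ne_one_of h1 h2 h)

lemma F_one : F (1, 1) = 0 := by
  rw [F_eq]; simp [hh]

lemma F_zero_iff {z : ℂ × ℂ} (h1 : ‖z.1‖ ≤ 1) (h2 : ‖z.2‖ ≤ 1) :
    F z = 0 ↔ z = ((1 : ℂ), (1 : ℂ)) := by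
  constructor
  · intro h
    have h5 : z.1 = 1 := by
      by_contra h'
      exact F_ne h1 h2 h' h
    have h6 : z.2 = 1 := by
      by_contra h'
      have h7 : (z.2 + z.1) / 2 ≠ 1 := H806R3.Bid.ne_one_of h2 h1 h'
      rw [F_eq, add_comm] at h
      exact hh_ne h7 h
    exact Prod.ext h5 h6
  · rintro rfl
    exact F_one

lemma zeroSet_F : zeroSet F = {((1 : ℂ), (1 : ℂ))} := by
  apply Set.Subset.antisymm
  · rintro ζ ⟨h1, h2, h3⟩
    exact (F_zero_iff h1.le h2.le).1 (tendsto_nhds_unique (radial h1.le h2.le) h3)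
  · rintro ζ rfl
    refine ⟨by simp, by simp, ?_⟩
    have := radial (ζ := ((1 : ℂ), (1 : ℂ))) (by simp) (by simp)
    rwa [F_one] at this

lemma outer_F : IsOuter F := by
  have hne : ∀ z ∈ bidisk, F z ≠ 0 := by
    intro z hz
    refine F_ne hz.1.le hz.2.le ?_
    intro h
    have := hz.1
    rw [h] at this
    simp at this
  refine ⟨hne, F, ?_, Pool.Agent.Y283.BD.integrable_LL, ?_⟩
  · have h : ∀ᵐ θ ∂(H806R3.Bid.mm.prod H806R3.Bid.mm), H806R3.Bid.cc θ.1 ≠ 1 := by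
      exact (Measure.quasiMeasurePreserving_fst (μ := H806R3.Bid.mm)
        (ν := H806R3.Bid.mm)).ae H806R3.Bid.ae_ne_one
    have h' : ∀ᵐ θ ∂haar2, H806R3.Bid.cc θ.1 ≠ 1 := h
    filter_upwards [h'] with θ hθ
    have h1 : ‖(torus θ).1‖ = 1 := H806R3.Bid.norm_cc θ.1
    have h2 : ‖(torus θ).2‖ = 1 := H806R3.Bid.norm_cc θ.2
    exact ⟨radial h1.le h2.le, F_ne h1.le h2.le hθ⟩
  · intro z hz
    exact Pool.Agent.Y283.BD.poisson2 hz.1 hz.2

/-- summability of `(k+l+1)^(-3)` over pairs -/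
lemma summable_pairs : Summable (fun k : ℕ × ℕ => (((k.1 : ℝ) + k.2 + 1) ^ 4)⁻¹) := by
  have h : Summable (fun n : ℕ => (((n : ℝ) + 1) ^ 2)⁻¹) := by
    have := (Real.summable_nat_pow_inv (p := 2)).2 (by norm_num)
    have h2 := (summable_nat_add_iff 1).2 this
    refine h2.congr fun n => ?_
    push_cast
    rfl
  have h2 := h.mul_of_nonneg h (fun n => by positivity) (fun n => by positivity)
  refine Summable.of_nonneg_of_le (fun k => by positivity) (fun k => ?_) h2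
  rw [← mul_inv]
  apply inv_anti₀ (by positivity)
  have h3 : (0 : ℝ) ≤ k.1 := Nat.cast_nonneg _
  have h4 : (0 : ℝ) ≤ k.2 := Nat.cast_nonneg _
  calc ((k.1 : ℝ) + 1) ^ 2 * ((k.2 : ℝ) + 1) ^ 2
      ≤ ((k.1 : ℝ) + k.2 + 1) ^ 2 * ((k.1 : ℝ) + k.2 + 1) ^ 2 := by
        gcongr <;> linarith
    _ = ((k.1 : ℝ) + k.2 + 1) ^ 4 := by ring

lemma weight_F {ω : ℕ × ℕ → ℝ} (hω : Tame ω) : weightSq ω F < ⊤ := by
  obtain ⟨N, c, C, hc, h⟩ := hω
  obtain ⟨a, ha, hM⟩ := rapid_F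
  obtain ⟨D, hD⟩ := hM (N + 2)
  have hD0 : 0 ≤ D := le_trans (by positivity) (hD 0)
  refine lt_of_le_of_lt (iInf₂_le a ha) ?_
  have hs := summable_pairs.mul_left (|C| * D ^ 2)
  refine lt_of_le_of_lt (ENNReal.tsum_le_tsum fun k => ENNReal.ofReal_le_ofReal ?_)
    hs.tsum_ofReal_lt_top
  set x : ℝ := (k.1 : ℝ) + k.2 + 1 with hx
  have hx1 : 1 ≤ x := by
    have h3 : (0 : ℝ) ≤ k.1 := Nat.cast_nonneg _
    have h4 : (0 : ℝ) ≤ k.2 := Nat.cast_nonneg _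
    linarith
  have hx0 : 0 < x := by linarith
  have h1 : ω k ≤ |C| * x ^ N :=
    (h k).2.trans (mul_le_mul_of_nonneg_right (le_abs_self C) (by positivity))
  have h2 : ‖a k‖ ≤ D / x ^ (N + 2) := by
    rw [le_div_iff₀ (by positivity), mul_comm]
    exact hD k
  calc ω k * ‖a k‖ ^ 2 ≤ (|C| * x ^ N) * (D / x ^ (N + 2)) ^ 2 := by gcongr
    _ = |C| * D ^ 2 * (x ^ N / (x ^ (N + 2)) ^ 2) := by
        rw [div_pow]
        generalize (x ^ (N + 2)) ^ 2 = w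
        ring
    _ ≤ |C| * D ^ 2 * (x ^ 4)⁻¹ := by
        refine mul_le_mul_of_nonneg_left ?_ (by positivity)
        rw [div_le_iff₀ (by positivity), inv_mul_eq_div, le_div_iff₀ (by positivity), ← pow_mul,
          ← pow_add]
        exact pow_le_pow_right₀ hx1 (by omega)

lemma not_cyclicIn_F {ω : ℕ × ℕ → ℝ} (hω : Tame ω) : ¬ IsCyclicIn ω F := by
  obtain ⟨N, c, C, hc, h⟩ := hω
  obtain ⟨ε, hε, H⟩ := Pool.Agent.Y283.BD.not_small hc (ω := ω) (N := N) (fun k => by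
    have := (h k).1
    rwa [div_le_iff₀ (by positivity)] at this)
  intro hcyc
  obtain ⟨p, hp⟩ := hcyc ε hε
  unfold weightSq at hp
  simp only [iInf_lt_iff] at hp
  obtain ⟨b, hb, hlt⟩ := hp
  exact H p b (fun z h1 h2 => hb z ⟨h1, h2⟩) hlt.le

lemma size_F {ν : (ℂ × ℂ → ℂ) → ENNReal} (hν : Controls ν) : ∃ ε : ℝ, 0 < ε ∧
    ∀ p : MvPolynomial (Fin 2) ℂ,
      ENNReal.ofReal ε ≤ ν (fun z => MvPolynomial.eval ![z.1, z.2] p * F z - 1) := by
  obtain ⟨C, N, h⟩ := hν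
  set A : ℝ := |C| + 1 with hA
  have hA0 : 0 < A := by positivity
  obtain ⟨t, ht0, ht1, ht⟩ := core (1 + A) N (δ := 1 / 4) (by norm_num)
  have h1t : 0 < (1 - t) ^ N := pow_pos (by linarith) N
  have h1t' : (1 - t) ^ N ≤ 1 := pow_le_one₀ (by linarith) (by linarith)
  refine ⟨min 1 ((1 - t) ^ N / (2 * A)), by positivity, fun p => ?_⟩
  set ε : ℝ := min 1 ((1 - t) ^ N / (2 * A)) with hε
  have hε0 : 0 < ε := by positivity
  by_contra hlt
  rw [not_le] at hlt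
  set f : ℂ × ℂ → ℂ := fun z => MvPolynomial.eval ![z.1, z.2] p * F z - 1 with hf
  have hval : ∀ s : ℂ, ‖s‖ < 1 → ‖f (s, s)‖ ≤ A / (1 - ‖s‖) ^ N * ε := by
    intro s hs
    have h0 : 0 < 1 - ‖s‖ := by linarith
    have h1 := (h f s hs).trans (mul_le_mul' (ENNReal.ofReal_le_ofReal
      (div_le_div_of_nonneg_right (show C ≤ A by rw [hA]; linarith [le_abs_self C])
        (pow_nonneg h0.le N))) hlt.le)
    rw [← ENNReal.ofReal_mul (by positivity), ENNReal.ofReal_le_ofReal_iff (by positivity)] at h1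
    exact h1
  set P := H806R3.Bid.diag p with hP
  have hfe : ∀ s : ℂ, P.eval s * hh s = 1 + f (s, s) := by
    intro s
    rw [hP, H806R3.Bid.diag_eval, hf]
    simp only [F_eq, add_self_div_two]
    ring
  have h4 := ht P (fun s hs => by
    have h0 : 0 < 1 - ‖s‖ := by linarith
    have h5 := hval s hs
    have h6 : A / (1 - ‖s‖) ^ N * ε ≤ A / (1 - ‖s‖) ^ N :=
      mul_le_of_le_one_right (by positivity) (min_le_left _ _)
    have h10 : (1 - ‖s‖) ^ N ≤ 1 := pow_le_one₀ h0.le (by linarith [norm_nonneg s])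
    have h11 : 1 ≤ 1 / (1 - ‖s‖) ^ N := by
      rw [le_div_iff₀ (by positivity)]
      linarith
    rw [hfe, add_div]
    refine (norm_add_le _ _).trans ?_
    rw [norm_one]
    linarith)
  have htn : ‖(t : ℂ)‖ = t := by rw [Complex.norm_real, Real.norm_of_nonneg ht0.le]
  have h5 := hval (t : ℂ) (by rw [htn]; exact ht1)
  rw [htn] at h5
  have h6 : A / (1 - t) ^ N * ε ≤ 1 / 2 := by
    calc A / (1 - t) ^ N * ε ≤ A / (1 - t) ^ N * ((1 - t) ^ N / (2 * A)) := by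
          have := min_le_right (1:ℝ) ((1 - t) ^ N / (2 * A))
          gcongr
      _ = 1 / 2 := by field_simp
  have h8 : (1 : ℝ) ≤ ‖P.eval (t : ℂ) * hh t‖ + ‖f ((t : ℂ), (t : ℂ))‖ := by
    have e : (1 : ℂ) = P.eval (t : ℂ) * hh t - f ((t : ℂ), (t : ℂ)) := by rw [hfe]; ring
    calc (1 : ℝ) = ‖(1 : ℂ)‖ := norm_one.symm
      _ = ‖P.eval (t : ℂ) * hh t - f ((t : ℂ), (t : ℂ))‖ := by rw [← e]
      _ ≤ _ := norm_sub_le _ _
  linarith

lemma tame_power (α : ℝ) : Tame (fun k => (((k.1 : ℝ) + 1) * ((k.2 : ℝ) + 1)) ^ α) := by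
  obtain ⟨N, hN⟩ := exists_nat_ge |α|
  refine ⟨2 * N, 1, 1, one_pos, fun k => ?_⟩
  set x : ℝ := (k.1 : ℝ) + k.2 + 1 with hx
  set y : ℝ := ((k.1 : ℝ) + 1) * ((k.2 : ℝ) + 1) with hy
  have h3 : (0 : ℝ) ≤ k.1 := Nat.cast_nonneg _
  have h4 : (0 : ℝ) ≤ k.2 := Nat.cast_nonneg _
  have hy1 : 1 ≤ y := by rw [hy]; nlinarith
  have hyx : y ≤ x ^ 2 := by rw [hy, hx]; nlinarith
  have h5 : y ^ N ≤ x ^ (2 * N) := by
    rw [pow_mul]
    exact pow_le_pow_left₀ (by linarith) hyx N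
  have hx1 : 1 ≤ x := by linarith
  have h6 : y ^ α ≤ y ^ N := by
    rw [← Real.rpow_natCast]
    exact Real.rpow_le_rpow_of_exponent_le hy1 ((le_abs_self α).trans hN)
  have h7 : (y ^ N)⁻¹ ≤ y ^ α := by
    rw [← Real.rpow_natCast, ← Real.rpow_neg (by linarith)]
    exact Real.rpow_le_rpow_of_exponent_le hy1 (by linarith [neg_abs_le α])
  constructor
  · refine le_trans ?_ h7
    rw [one_div]
    exact inv_anti₀ (by positivity) h5
  · rw [one_mul]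
    exact h6.trans h5

/-- **A smooth outer function on the bidisk which is cyclic in no space of polynomial type.** -/
theorem result :
    (dirichletSq F < ⊤ ∧ IsOuter F ∧ CapZero (zeroSet F) ∧ ¬ IsCyclic F) ∧
    Rapid F ∧ ContinuousOn F {z | ‖z.1‖ ≤ 1 ∧ ‖z.2‖ ≤ 1} ∧
    (∀ z : ℂ × ℂ, ‖z.1‖ ≤ 1 → ‖z.2‖ ≤ 1 → (F z = 0 ↔ z = (1, 1))) ∧
    (∀ ω : ℕ × ℕ → ℝ, Tame ω → weightSq ω F < ⊤ ∧ ¬ IsCyclicIn ω F) ∧
    (∀ α : ℝ, Tame (fun k => (((k.1 : ℝ) + 1) * ((k.2 : ℝ) + 1)) ^ α)) ∧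
    (∀ ν : (ℂ × ℂ → ℂ) → ENNReal, Controls ν → ∃ ε : ℝ, 0 < ε ∧
      ∀ p : MvPolynomial (Fin 2) ℂ,
        ENNReal.ofReal ε ≤ ν (fun z => MvPolynomial.eval ![z.1, z.2] p * F z - 1)) := by
  have e : ∀ f, dirichletSq f = weightSq (fun k => (((k.1 : ℝ) + 1) * ((k.2 : ℝ) + 1)) ^ (1 : ℝ)) f := by
    intro f
    unfold dirichletSq weightSq
    simp only [Real.rpow_one]
  refine ⟨⟨?_, outer_F, capZero_of_sub zeroSet_F.subset, ?_⟩, rapid_F, contOn_F,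
    fun z h1 h2 => F_zero_iff h1 h2, fun ω hω => ⟨weight_F hω, not_cyclicIn_F hω⟩, tame_power,
    fun ν hν => size_F hν⟩
  · rw [e]
    exact weight_F (tame_power 1)
  · intro h
    apply not_cyclicIn_F (tame_power 1)
    intro ε hε
    obtain ⟨p, hp⟩ := h ε hε
    exact ⟨p, by rw [← e]; exact hp⟩

end Pool.Agent.Results.MP_dad4ef_an.SmoothNotCyclic
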